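import Mathlib

/-!
# A paracompact space without isolated points with a base that cannot be split into two bases

We construct, in ZFC, a compact Hausdorff space `K` (a Cantor cube of weight continuum) and a
completely metrizable space `Y` (a countable product of discrete spaces) such that the paracompact
Hausdorff space `K × Y` has a base that is not the union of two disjoint bases.

Coordinates of `K` are pairs `(n, w)`, where `n` is the level and `w` is a 0-1 sequence.  A finite
set `v` of coordinates of level at most `n` gets a private coordinate `(n + 1, e v)` of level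
`n + 1`.  A point `y` of `Y` is a sequence of colourings `y n` of finite sets of coordinates.  The
colouring `y n` determines a colour `ii y n`: it is `false` if the members of colour `false` are
cofinal in the finite sets of level at most `n`; otherwise it is `true` and there is `uu n (y n)` all
of whose supersets (of level at most `n`) have colour `true`.  The set `V y n` of accepted finite
sets consists of members of that colour: all members of colour `false` in the first case, and in the
second case all supersets of `uu n (y n)` containing no new coordinate from `R y n`, where `R y n` is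
the set of the coordinates `(0, r (τ, a))` for which `τ` is infinitely often `false` and agrees with
the colours `ii y j`, `j ≤ n`.  The point `ks y` of `K` is `true` at `(n + 1, e v)` exactly when `v`
is accepted.  The base `Bs` consists of the sets `Main y n v` (they are the neighbourhoods of the
points of the graph of `ks`) and of all open sets disjoint from the graph of `ks`, a closed set.
Given a splitting of `Bs` into two families, i.e. a colouring of `Bs`, there is a play `y` along
which `y n v` is the colour of `Main y n v`, and one of the two colours is not a base at `(ks y, y)`: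
if `ii y n = false` for infinitely many `n`, then `true` fails below the coordinate
`(0, r (ii y, a))` for a suitable `a`; otherwise `false` fails below any coordinate of high level.
-/

set_option autoImplicit false

open TopologicalSpace Set

namespace Pool.Agent.Results.MP_bab9cd_gt.CompactTimesMetrizable

/-- 0-1 sequences -/
abbrev W : Type := ℕ → Bool
/-- coordinates: level and 0-1 sequence -/
abbrev S : Type := ℕ × W

theorem exists_e : ∃ e : Finset S → W, Function.Injective e := by
  have h : Cardinal.mk (Finset S) ≤ Cardinal.mk W := by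
    rw [Cardinal.mk_finset_of_infinite]
    simp
  obtain ⟨f⟩ := h
  exact ⟨f, f.injective⟩

theorem exists_r : ∃ r : W × W → W, Function.Injective r := by
  have h : Cardinal.mk (W × W) ≤ Cardinal.mk W := by
    simp
  obtain ⟨f⟩ := h
  exact ⟨f, f.injective⟩

instance : Uncountable W := by
  rw [← Cardinal.aleph0_lt_mk_iff]
  simpa using Cardinal.aleph0_lt_continuum

/-- an injection from finite sets of coordinates to 0-1 sequences -/
noncomputable def e : Finset S → W := exists_e.choose
theorem e_inj : Function.Injective e := exists_e.choose_spec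
/-- an injection from pairs of 0-1 sequences to 0-1 sequences -/
noncomputable def r : W × W → W := exists_r.choose
theorem r_inj : Function.Injective r := exists_r.choose_spec

/-- colourings of the finite sets of coordinates, with the discrete topology -/
structure D : Type where
  /-- the colouring -/
  f : Finset S → Bool

instance : TopologicalSpace D := ⊥
instance : DiscreteTopology D := ⟨rfl⟩
instance : Inhabited D := ⟨⟨fun _ => false⟩⟩

/-- the metrizable factor -/
abbrev Y : Type := ℕ → D
/-- the compact factor -/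
abbrev K : Type := S → Bool

/-- finite sets of coordinates of level at most `n` -/
def Lam (n : ℕ) : Set (Finset S) := {v | ∀ x ∈ v, x.1 ≤ n}

/-- the colour `false` is cofinal in `Lam n` -/
def Cof (n : ℕ) (c : D) : Prop := ∀ u ∈ Lam n, ∃ v ∈ Lam n, u ⊆ v ∧ c.f v = false

open Classical in
/-- the colour chosen at stage `n` -/
noncomputable def ii (y : Y) (n : ℕ) : Bool := !decide (Cof n (y n))

theorem exists_u (n : ℕ) (c : D) : ∃ u ∈ Lam n, ¬ Cof n c → ∀ v ∈ Lam n, u ⊆ v → c.f v = true := by
  by_cases h : Cof n c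
  · exact ⟨∅, by simp [Lam], fun h' => absurd h h'⟩
  · have h' := h
    unfold Cof at h'
    push Not at h'
    obtain ⟨u, hu, h2⟩ := h'
    refine ⟨u, hu, fun _ v hv huv => ?_⟩
    simpa using h2 v hv huv

/-- if `false` is not cofinal, all supersets of this set have colour `true` -/
noncomputable def uu (n : ℕ) (c : D) : Finset S := (exists_u n c).choose
theorem uu_mem (n : ℕ) (c : D) : uu n c ∈ Lam n := (exists_u n c).choose_spec.1
theorem uu_spec {n : ℕ} {c : D} (h : ¬ Cof n c) {v : Finset S} (hv : v ∈ Lam n)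
    (huv : uu n c ⊆ v) : c.f v = true := (exists_u n c).choose_spec.2 h v hv huv

/-- reserved coordinates -/
def R (y : Y) (n : ℕ) : Set S :=
  {x | ∃ τ a : W, x = (0, r (τ, a)) ∧ (∀ m, ∃ j ≥ m, τ j = false) ∧ ∀ j ≤ n, τ j = ii y j}

/-- accepted finite sets at stage `n` -/
def V (y : Y) (n : ℕ) : Set (Finset S) :=
  {v | v ∈ Lam n ∧ (Cof n (y n) → (y n).f v = false) ∧
    (¬ Cof n (y n) → uu n (y n) ⊆ v ∧ ∀ x ∈ v, x ∈ R y n → x ∈ uu n (y n))}

open Classical in
/-- the point of `K` over `y` -/
noncomputable def ks (y : Y) (x : S) : Bool :=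
  match x with
  | (0, _) => false
  | (n + 1, w) => decide (∃ v ∈ V y n, e v = w)

theorem ks_succ {y : Y} {n : ℕ} {w : W} : ks y (n + 1, w) = true ↔ ∃ v ∈ V y n, e v = w := by
  simp [ks]

/-- the main members of the base -/
def Main (y : Y) (n : ℕ) (v : Finset S) : Set (K × Y) :=
  {p | (∀ j < n, p.2 j = y j) ∧ (∀ x ∈ v, p.1 x = ks y x) ∧ p.1 (n + 1, e v) = true}

/-- the base -/
def Bs : Set (Set (K × Y)) :=
  {b | (∃ y n v, v ∈ Lam n ∧ b = Main y n v) ∨ (IsOpen b ∧ ∀ y, (ks y, y) ∉ b)}

theorem ii_congr {y y' : Y} {n : ℕ} (h : y n = y' n) : ii y n = ii y' n := by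
  unfold ii; rw [h]

theorem R_congr {y y' : Y} {n : ℕ} (h : ∀ j ≤ n, y j = y' j) : R y n = R y' n := by
  ext x
  unfold R
  constructor
  · rintro ⟨τ, a, h1, h2, h3⟩
    exact ⟨τ, a, h1, h2, fun j hj => by rw [h3 j hj]; exact ii_congr (h j hj)⟩
  · rintro ⟨τ, a, h1, h2, h3⟩
    exact ⟨τ, a, h1, h2, fun j hj => by rw [h3 j hj]; exact (ii_congr (h j hj)).symm⟩

theorem V_congr {y y' : Y} {n : ℕ} (h : ∀ j ≤ n, y j = y' j) : V y n = V y' n := by
  unfold V
  rw [h n le_rfl, R_congr h]

theorem ks_congr {y y' : Y} {n : ℕ} (h : ∀ j < n, y j = y' j) (x : S) (hx : x.1 ≤ n) :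
    ks y x = ks y' x := by
  obtain ⟨m, w⟩ := x
  cases m with
  | zero => rfl
  | succ m =>
    have : V y m = V y' m := V_congr (fun j hj => h j (by simp at hx; omega))
    rw [Bool.eq_iff_iff, ks_succ, ks_succ, this]

theorem Main_congr {y y' : Y} {n : ℕ} (h : ∀ j < n, y j = y' j) {v : Finset S} (hv : v ∈ Lam n) :
    Main y n v = Main y' n v := by
  ext p
  unfold Main
  constructor
  · rintro ⟨h1, h2, h3⟩
    exact ⟨fun j hj => by rw [h1 j hj, h j hj],
      fun x hx => by rw [h2 x hx]; exact ks_congr h x (hv x hx), h3⟩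
  · rintro ⟨h1, h2, h3⟩
    exact ⟨fun j hj => by rw [h1 j hj, h j hj],
      fun x hx => by rw [h2 x hx]; exact (ks_congr h x (hv x hx)).symm, h3⟩

theorem isOpen_cyl (y : Y) (n : ℕ) : IsOpen {y' : Y | ∀ j < n, y' j = y j} := by
  have : {y' : Y | ∀ j < n, y' j = y j} = ⋂ j ∈ Finset.range n, (fun y' : Y => y' j) ⁻¹' {y j} := by
    ext y'; simp
  rw [this]
  exact isOpen_biInter_finset fun j _ => (isOpen_discrete _).preimage (continuous_apply j)

theorem continuous_ks : Continuous ks := by
  refine continuous_pi fun x => ?_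
  rw [continuous_discrete_rng]
  intro b
  rw [isOpen_iff_forall_mem_open]
  intro y hy
  refine ⟨{y' : Y | ∀ j < x.1, y' j = y j}, ?_, isOpen_cyl y _, fun j _ => rfl⟩
  intro y' hy'
  have : ks y' x = ks y x := ks_congr hy' x le_rfl
  simpa [this] using hy

theorem isOpen_compl_graph : IsOpen {p : K × Y | p.1 ≠ ks p.2} :=
  isOpen_ne_fun continuous_fst (continuous_ks.comp continuous_snd)

theorem isOpen_coord (ξ : S) (β : Bool) : IsOpen {p : K × Y | p.1 ξ = β} :=
  (isOpen_discrete ({β} : Set Bool)).preimage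
    (show Continuous fun p : K × Y => p.1 ξ by fun_prop)

theorem isOpen_Main (y : Y) (n : ℕ) (v : Finset S) : IsOpen (Main y n v) := by
  have : Main y n v = (Prod.snd ⁻¹' {y' : Y | ∀ j < n, y' j = y j}) ∩
      ((⋂ x ∈ v, (fun p : K × Y => p.1 x) ⁻¹' {ks y x}) ∩
        (fun p : K × Y => p.1 (n + 1, e v)) ⁻¹' {true}) := by
    ext p; simp [Main]
  rw [this]
  refine ((isOpen_cyl y n).preimage continuous_snd).inter (IsOpen.inter ?_ ?_)
  · exact isOpen_biInter_finset fun x _ =>
      (isOpen_discrete _).preimage ((continuous_apply x).comp continuous_fst)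
  · exact (isOpen_discrete _).preimage ((continuous_apply _).comp continuous_fst)

theorem isOpen_Bs {b : Set (K × Y)} (hb : b ∈ Bs) : IsOpen b := by
  rcases hb with ⟨y, n, v, _, rfl⟩ | ⟨h, _⟩
  · exact isOpen_Main y n v
  · exact h

/-- basic neighbourhoods -/
theorem exists_basic {O : Set (K × Y)} (hO : IsOpen O) {k : K} {y : Y} (h : (k, y) ∈ O) :
    ∃ (F : Finset S) (m : ℕ), ∀ p : K × Y, (∀ x ∈ F, p.1 x = k x) → (∀ j < m, p.2 j = y j) →
      p ∈ O := by
  obtain ⟨U, T, hU, hT, hkU, hyT, hUT⟩ := isOpen_prod_iff.1 hO k y h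
  obtain ⟨F, u, hu, hFU⟩ := isOpen_pi_iff.1 hU k hkU
  obtain ⟨G, t, ht, hGT⟩ := isOpen_pi_iff.1 hT y hyT
  refine ⟨F, G.sup id + 1, fun p h1 h2 => hUT ⟨hFU ?_, hGT ?_⟩⟩
  · intro x hx
    rw [h1 x (by simpa using hx)]
    exact (hu x (by simpa using hx)).2
  · intro j hj
    have hj' : j ∈ G := by simpa using hj
    rw [h2 j (Nat.lt_succ_of_le (Finset.le_sup (f := id) hj'))]
    exact (ht j hj').2

theorem mem_Lam_mono {m n : ℕ} (h : m ≤ n) {v : Finset S} (hv : v ∈ Lam m) : v ∈ Lam n :=
  fun x hx => (hv x hx).trans h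

theorem R_anti {y : Y} {m n : ℕ} (h : m ≤ n) : R y n ⊆ R y m := by
  rintro x ⟨τ, a, h1, h2, h3⟩
  exact ⟨τ, a, h1, h2, fun j hj => h3 j (hj.trans h)⟩

theorem served (y : Y) (F : Finset S) (m : ℕ) : ∃ n ≥ m, ∃ v ∈ V y n, F ⊆ v := by
  classical
  set N := max m (F.sup Prod.fst) with hN
  have hF : ∀ n ≥ N, F ∈ Lam n := fun n hn x hx =>
    (Finset.le_sup (f := Prod.fst) hx).trans ((le_max_right _ _).trans hn)
  by_cases hA : ∀ n, ∃ j ≥ n, Cof j (y j)
  · obtain ⟨n, hn, hc⟩ := hA N
    obtain ⟨v, hv, hFv, hcv⟩ := hc F (hF n hn)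
    exact ⟨n, (le_max_left _ _).trans hn, v, ⟨hv, fun _ => hcv, fun h => absurd hc h⟩, hFv⟩
  · push Not at hA
    obtain ⟨n0, h0⟩ := hA
    have key : ∀ x : S, ∃ n, x ∉ R y n := by
      intro x
      by_contra hcon
      push Not at hcon
      obtain ⟨τ, a, hx, hτ, -⟩ := hcon 0
      have h1 : ∀ j, τ j = ii y j := by
        intro j
        obtain ⟨τ', a', hx', -, h3⟩ := hcon j
        have : r (τ, a) = r (τ', a') := by
          have := hx.symm.trans hx'
          exact (Prod.mk.inj this).2
        have := r_inj this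
        rw [(Prod.mk.inj this).1]
        exact h3 j le_rfl
      obtain ⟨j, hj, hj'⟩ := hτ n0
      rw [h1 j] at hj'
      simp [ii] at hj'
      exact h0 j hj hj'
    choose g hg using key
    set n := max (max N n0) (F.sup g) with hn
    have hnN : N ≤ n := (le_max_left _ _).trans (le_max_left _ _)
    have hn0 : n0 ≤ n := (le_max_right _ _).trans (le_max_left _ _)
    refine ⟨n, (le_max_left _ _).trans hnN, F ∪ uu n (y n), ⟨?_, ?_, ?_⟩, Finset.subset_union_left⟩
    · intro x hx
      rcases Finset.mem_union.1 hx with hx | hx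
      · exact hF n hnN x hx
      · exact uu_mem n (y n) x hx
    · intro h
      exact absurd h (h0 n hn0)
    · intro _
      refine ⟨Finset.subset_union_right, fun x hx hxR => ?_⟩
      rcases Finset.mem_union.1 hx with hx | hx
      · exact absurd (R_anti ((Finset.le_sup (f := g) hx).trans (le_max_right _ _)) hxR) (hg x)
      · exact hx

theorem isBasis_Bs : IsTopologicalBasis Bs := by
  refine isTopologicalBasis_of_isOpen_of_nhds (fun b hb => isOpen_Bs hb) ?_
  rintro ⟨k, y⟩ O hp hO
  by_cases hk : k = ks y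
  · subst hk
    obtain ⟨F, m, hFm⟩ := exists_basic hO hp
    obtain ⟨n, hn, v, hv, hFv⟩ := served y F m
    refine ⟨Main y n v, Or.inl ⟨y, n, v, hv.1, rfl⟩, ⟨fun j _ => rfl, fun x _ => rfl, ?_⟩, ?_⟩
    · exact ks_succ.2 ⟨v, hv, rfl⟩
    · rintro p ⟨h1, h2, -⟩
      exact hFm p (fun x hx => h2 x (hFv hx)) (fun j hj => h1 j (lt_of_lt_of_le hj hn))
  · refine ⟨O ∩ {p : K × Y | p.1 ≠ ks p.2}, Or.inr ⟨hO.inter isOpen_compl_graph, ?_⟩, ⟨hp, hk⟩,
      inter_subset_left⟩
    rintro y' ⟨-, h⟩
    exact h rfl

theorem exists_play (c : Set (K × Y) → Bool) :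
    ∃ y : Y, ∀ n, ∀ v ∈ Lam n, (y n).f v = c (Main y n v) := by
  let ys : ℕ → Y := fun n => Nat.rec default
    (fun n y => Function.update y n ⟨fun v => c (Main y n v)⟩) n
  have hys : ∀ n, ys (n + 1) = Function.update (ys n) n ⟨fun v => c (Main (ys n) n v)⟩ :=
    fun n => rfl
  have hst : ∀ n j, j < n → ys n j = ys (j + 1) j := by
    intro n
    induction n with
    | zero => intro j hj; omega
    | succ n ih =>
      intro j hj
      by_cases hjn : j = n
      · subst hjn; rfl
      · rw [hys n, Function.update_of_ne hjn]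
        exact ih j (by omega)
  refine ⟨fun n => ys (n + 1) n, fun n v hv => ?_⟩
  have h1 : Main (fun n => ys (n + 1) n) n v = Main (ys n) n v :=
    Main_congr (fun j hj => (hst n j hj).symm) hv
  rw [h1]
  show (ys (n + 1) n).f v = _
  rw [hys n]
  simp

theorem mem_Bs_graph {b : Set (K × Y)} (hb : b ∈ Bs) {y : Y} (hy : (ks y, y) ∈ b) :
    ∃ n, ∃ v ∈ V y n, b = Main y n v := by
  rcases hb with ⟨y', n, v, hv, rfl⟩ | ⟨-, h⟩
  · have h1 : ∀ j < n, y' j = y j := fun j hj => (hy.1 j hj).symm
    obtain ⟨v', hv', he⟩ := ks_succ.1 hy.2.2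
    have := e_inj he
    subst this
    exact ⟨n, v', hv', Main_congr h1 hv⟩
  · exact absurd hy (h y)

theorem V_color {y : Y} {n : ℕ} {v : Finset S} (hv : v ∈ V y n) : (y n).f v = ii y n := by
  obtain ⟨h1, h2, h3⟩ := hv
  by_cases h : Cof n (y n)
  · rw [h2 h]; simp [ii, h]
  · rw [uu_spec h h1 (h3 h).1]; simp [ii, h]

theorem mem_of_subset {y : Y} {n : ℕ} {v : Finset S} (hv : v ∈ V y n) {ξ : S}
    (h : ∀ p ∈ Main y n v, p.1 ξ = ks y ξ) : ξ ∈ v ∨ ξ = (n + 1, e v) := by
  classical
  by_contra hcon
  push Not at hcon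
  have hm : (Function.update (ks y) ξ (!ks y ξ), y) ∈ Main y n v := by
    refine ⟨fun j _ => rfl, fun x hx => ?_, ?_⟩
    · have : x ≠ ξ := fun h => hcon.1 (h ▸ hx)
      simp [Function.update_of_ne this]
    · simp only
      rw [Function.update_of_ne (Ne.symm hcon.2)]
      exact ks_succ.2 ⟨v, hv, rfl⟩
  have := h _ hm
  simp at this

theorem not_resolvable : ¬ ∃ B₀ B₁ : Set (Set (K × Y)), B₀ ∪ B₁ = Bs ∧ B₀ ∩ B₁ = ∅ ∧
    IsTopologicalBasis B₀ ∧ IsTopologicalBasis B₁ := by
  classical
  rintro ⟨B₀, B₁, hU, hD, hB0, hB1⟩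
  obtain ⟨y, hy⟩ := exists_play (fun b => decide (b ∈ B₁))
  have hcol : ∀ n, ∀ v ∈ V y n, decide (Main y n v ∈ B₁) = ii y n := fun n v hv =>
    (hy n v hv.1).symm.trans (V_color hv)
  have hB0s : B₀ ⊆ Bs := hU ▸ subset_union_left
  have hB1s : B₁ ⊆ Bs := hU ▸ subset_union_right
  by_cases hA : ∀ n, ∃ j ≥ n, ii y j = false
  · -- the second family fails
    have hcount : {a : W | ∃ n, ((0, r (ii y, a)) : S) ∈ uu n (y n)}.Countable := by
      have : {a : W | ∃ n, ((0, r (ii y, a)) : S) ∈ uu n (y n)} =
          ⋃ n, {a : W | ((0, r (ii y, a)) : S) ∈ uu n (y n)} := by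
        ext a; simp
      rw [this]
      refine countable_iUnion fun n => Set.Finite.countable ?_
      have hinj : Function.Injective (fun a : W => ((0, r (ii y, a)) : S)) := by
        intro a b hab
        have := r_inj (Prod.mk.inj hab).2
        exact (Prod.mk.inj this).2
      exact (uu n (y n)).finite_toSet.preimage hinj.injOn
    obtain ⟨a, ha⟩ : ∃ a : W, a ∉ {a : W | ∃ n, ((0, r (ii y, a)) : S) ∈ uu n (y n)} := by
      by_contra hcon
      push Not at hcon
      have : (univ : Set W) ⊆ {a : W | ∃ n, ((0, r (ii y, a)) : S) ∈ uu n (y n)} :=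
        fun a _ => hcon a
      exact not_countable_univ (hcount.mono this)
    set ξ : S := (0, r (ii y, a)) with hξ
    have hq : IsOpen {p : K × Y | p.1 ξ = ks y ξ} := isOpen_coord ξ _
    obtain ⟨b, hb, hyb, hbq⟩ := hB1.exists_subset_of_mem_open
      (show (ks y, y) ∈ {p : K × Y | p.1 ξ = ks y ξ} from rfl) hq
    obtain ⟨n, v, hv, rfl⟩ := mem_Bs_graph (hB1s hb) hyb
    have hi : ii y n = true := by rw [← hcol n v hv]; exact decide_eq_true hb
    have hc : ¬ Cof n (y n) := by simpa [ii] using hi
    rcases mem_of_subset hv (fun p hp => hbq hp) with hξv | hξv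
    · have hR : ξ ∈ R y n := ⟨ii y, a, rfl, hA, fun j _ => rfl⟩
      exact ha ⟨n, (hv.2.2 hc).2 ξ hξv hR⟩
    · exact absurd (Prod.mk.inj hξv).1 (by omega)
  · push Not at hA
    obtain ⟨n0, h0⟩ := hA
    set ξ : S := (n0 + 1, fun _ => false) with hξ
    have hq : IsOpen {p : K × Y | p.1 ξ = ks y ξ} := isOpen_coord ξ _
    obtain ⟨b, hb, hyb, hbq⟩ := hB0.exists_subset_of_mem_open
      (show (ks y, y) ∈ {p : K × Y | p.1 ξ = ks y ξ} from rfl) hq
    obtain ⟨n, v, hv, rfl⟩ := mem_Bs_graph (hB0s hb) hyb
    have hn : n0 ≤ n := by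
      rcases mem_of_subset hv (fun p hp => hbq hp) with hξv | hξv
      · have := hv.1 ξ hξv
        simp [hξ] at this; omega
      · have := (Prod.mk.inj hξv).1
        omega
    have h1 : ii y n = true := by simpa using h0 n hn
    have h2 : Main y n v ∈ B₁ := by
      have := hcol n v hv
      rw [h1] at this
      exact of_decide_eq_true this
    exact absurd (show Main y n v ∈ B₀ ∩ B₁ from ⟨hb, h2⟩) (by rw [hD]; exact notMem_empty _)

theorem denseInItself_K : ∀ x : K, ¬ IsOpen ({x} : Set K) := by
  classical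
  intro k hk
  obtain ⟨F, u, hu, hF⟩ := isOpen_pi_iff.1 hk k rfl
  obtain ⟨x, hx⟩ := Infinite.exists_notMem_finset F
  have : Function.update k x (!k x) ∈ ({k} : Set K) := by
    refine hF fun z hz => ?_
    have hzx : z ≠ x := fun h => hx (h ▸ (by simpa using hz))
    rw [Function.update_of_ne hzx]
    exact (hu z (by simpa using hz)).2
  have h2 := congrFun (mem_singleton_iff.1 this) x
  simp at h2

theorem denseInItself_prod : ∀ x : K × Y, ¬ IsOpen ({x} : Set (K × Y)) := by
  rintro ⟨k, y⟩ h
  apply denseInItself_K k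
  have : ({k} : Set K) = (fun k' => (k', y)) ⁻¹' ({(k, y)} : Set (K × Y)) := by
    ext k'; simp
  rw [this]
  exact h.preimage (by fun_prop)

/-- There is a paracompact Hausdorff space `X` without isolated points that has a base `B` which
is not the union of two disjoint subfamilies that are both bases of `X`. -/
theorem result : ∃ (X : Type) (_ : TopologicalSpace X), T2Space X ∧ ParacompactSpace X ∧
    (∀ x : X, ¬ IsOpen ({x} : Set X)) ∧
    ∃ B : Set (Set X), IsTopologicalBasis B ∧
      ¬ ∃ B₀ B₁ : Set (Set X), B₀ ∪ B₁ = B ∧ B₀ ∩ B₁ = ∅ ∧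
        IsTopologicalBasis B₀ ∧ IsTopologicalBasis B₁ := by
  let _ : MetricSpace Y := metrizableSpaceMetric Y
  exact ⟨K × Y, inferInstance, inferInstance, inferInstance, denseInItself_prod, Bs, isBasis_Bs,
    not_resolvable⟩

end Pool.Agent.Results.MP_bab9cd_gt.CompactTimesMetrizable
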